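import Pool.Agent.Y125.RS.E1a

set_option autoImplicit false
set_option linter.all false

/-! RS-E1: the discrete lower bound. -/

namespace Pool.Agent.Y125.RS

open Set Filter Topology MeasureTheory
open Pool.Agent.Y267.RS

noncomputable section

theorem np_before (h2 : A2Stm) (h3 : A3Stm) (h6 : A6Stm) (hc1 : C1Stm) (j : ℕ) (x : T1) (n : ℕ)
    (hF : Free x n) {δ : ℝ} (hδ : 0 < δ) (v : ℕ) (hvn : v < n) (hv : rot x v ∈ W j)
    (hD : ((n : ℝ) / Q j + 3) * th j ≤ δ)
    (hs : √(((n : ℝ) / Q j + 3) * th j) * (4 * (1 / 2 + r δ)) ≤ 1) :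
    ∃ M : ℕ, v + 1 ≤ M * Q j ∧
      ∑ t ∈ Finset.range n, Rt δ (rot x t) + 1 / 8 * (√(M : ℝ) * Q j) ≤ TT x n := by
  have hqn : 0 < Q j := lt_of_lt_of_le (by norm_num) (Q_ge j)
  have hq := Q_pos j
  have hth := th_pos h2 j
  have hr : 0 ≤ 4 * (1 / 2 + r δ) := by
    have := hc1.2.1 δ hδ
    linarith
  have hle : (((v / Q j + 1 : ℕ) : ℝ) + 2) * th j ≤ ((n : ℝ) / Q j + 3) * th j := by
    refine mul_le_mul_of_nonneg_right ?_ hth.le
    have h1 : ((v / Q j : ℕ) : ℝ) ≤ (n : ℝ) / Q j := by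
      rw [le_div_iff₀ hq]
      have : v / Q j * Q j ≤ n := (Nat.div_mul_le_self _ _).trans hvn.le
      exact_mod_cast this
    push_cast
    linarith
  refine ⟨v / Q j + 1, ?_, ?_⟩
  · have := Nat.lt_div_mul_add (a := v) hqn
    nlinarith
  · have hlq : ∀ l < v / Q j + 1, l * Q j ≤ v := fun l hl =>
      (Nat.mul_le_mul_right _ (Nat.lt_succ_iff.1 hl)).trans (Nat.div_mul_le_self _ _)
    refine near_pass h2 hc1 j x n hF hδ _ (Nat.le_add_left 1 _) (fun l => v - l * Q j) ?_ ?_ ?_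
      (hle.trans hD) ?_
    · intro a ha b hb hab
      have ha' := hlq a (by simpa using ha)
      have hb' := hlq b (by simpa using hb)
      have h1 : v - a * Q j = v - b * Q j := hab
      have h3 : a * Q j = b * Q j := by omega
      exact Nat.eq_of_mul_eq_mul_right hqn h3
    · intro l hl
      show v - l * Q j < n
      omega
    · intro l hl
      exact dist_before h2 h3 h6 j x v hv l (hlq l hl)
    · refine le_trans ?_ hs
      exact mul_le_mul_of_nonneg_right (Real.sqrt_le_sqrt hle) hr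

theorem np_after (h2 : A2Stm) (h3 : A3Stm) (h6 : A6Stm) (hc1 : C1Stm) (j : ℕ) (x : T1) (n : ℕ)
    (hF : Free x n) {δ : ℝ} (hδ : 0 < δ) (v : ℕ) (hvn : v < n) (hv : rot x v ∈ W j)
    (hD : ((n : ℝ) / Q j + 3) * th j ≤ δ)
    (hs : √(((n : ℝ) / Q j + 3) * th j) * (4 * (1 / 2 + r δ)) ≤ 1) :
    ∃ M : ℕ, n - v ≤ M * Q j ∧
      ∑ t ∈ Finset.range n, Rt δ (rot x t) + 1 / 8 * (√(M : ℝ) * Q j) ≤ TT x n := by
  have hqn : 0 < Q j := lt_of_lt_of_le (by norm_num) (Q_ge j)
  have hq := Q_pos j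
  have hth := th_pos h2 j
  have hr : 0 ≤ 4 * (1 / 2 + r δ) := by
    have := hc1.2.1 δ hδ
    linarith
  have hle : ((((n - 1 - v) / Q j + 1 : ℕ) : ℝ) + 2) * th j ≤ ((n : ℝ) / Q j + 3) * th j := by
    refine mul_le_mul_of_nonneg_right ?_ hth.le
    have h1 : (((n - 1 - v) / Q j : ℕ) : ℝ) ≤ (n : ℝ) / Q j := by
      rw [le_div_iff₀ hq]
      have : (n - 1 - v) / Q j * Q j ≤ n := (Nat.div_mul_le_self _ _).trans (by omega)
      exact_mod_cast this
    push_cast
    linarith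
  refine ⟨(n - 1 - v) / Q j + 1, ?_, ?_⟩
  · have h1 := Nat.lt_div_mul_add (a := n - 1 - v) hqn
    have h2 : ((n - 1 - v) / Q j + 1) * Q j = (n - 1 - v) / Q j * Q j + Q j := by ring
    rw [h2]
    omega
  · have hlq : ∀ l < (n - 1 - v) / Q j + 1, l * Q j ≤ n - 1 - v := fun l hl =>
      (Nat.mul_le_mul_right _ (Nat.lt_succ_iff.1 hl)).trans (Nat.div_mul_le_self _ _)
    refine near_pass h2 hc1 j x n hF hδ _ (Nat.le_add_left 1 _) (fun l => v + l * Q j) ?_ ?_ ?_
      (hle.trans hD) ?_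
    · intro a ha b hb hab
      have h1 : v + a * Q j = v + b * Q j := hab
      have h3 : a * Q j = b * Q j := by omega
      exact Nat.eq_of_mul_eq_mul_right hqn h3
    · intro l hl
      have := hlq l hl
      show v + l * Q j < n
      omega
    · intro l hl
      exact dist_after h2 h3 h6 j x v hv l
    · refine le_trans ?_ hs
      exact mul_le_mul_of_nonneg_right (Real.sqrt_le_sqrt hle) hr

/-- the final algebra: from the number of near passes to `a * b` -/
theorem sqrt_ab {q M a b : ℝ} (hq : 0 < q) (hM : 0 ≤ M) (ha : 0 ≤ a) (hb : 0 ≤ b) (hbq : b ≤ q)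
    (haM : a ≤ 2 * (M * q)) : 1 / 16 * √(a * b) ≤ 1 / 8 * (√M * q) := by
  have h1 : √M * q = √(M * q ^ 2) := by
    rw [Real.sqrt_mul hM, Real.sqrt_sq hq.le]
  have h2 : √(a * b) ≤ √(4 * (M * q ^ 2)) := by
    refine Real.sqrt_le_sqrt ?_
    have h3 : a * b ≤ (2 * (M * q)) * q := mul_le_mul haM hbq hb (by positivity)
    nlinarith [mul_nonneg hM (sq_nonneg q)]
  have h4 : √(4 * (M * q ^ 2)) = 2 * √(M * q ^ 2) := by
    rw [Real.sqrt_mul (by norm_num)]
    congr 1
    rw [show (4 : ℝ) = 2 ^ 2 by norm_num, Real.sqrt_sq (by norm_num)]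
  rw [h1]
  linarith

/-- the sum of the signs and the total time -/
theorem dichotomy (h2 : A2Stm) (h3 : A3Stm) (h4 : A4Stm) (h5 : A5Stm) (h6 : A6Stm) (hc1 : C1Stm)
    (j : ℕ) (x : T1) (n : ℕ) (hn : (n : ℝ) * th j ≤ 1 / 2)
    (hF : Free x n) {δ : ℝ} (hδ : 0 < δ) (hD : ((n : ℝ) / Q j + 3) * th j ≤ δ)
    (hs : √(((n : ℝ) / Q j + 3) * th j) * (4 * (1 / 2 + r δ)) ≤ 1) (g : ℕ → ℝ) (κ E : ℝ)
    (hG : ∀ l ≤ n, |∑ t ∈ Finset.range l, g t - κ * l| ≤ E) :
    (∃ t < n, ‖rot x t - (be : T1)‖ ≤ be - uu (j + 1)) ∨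
    ∃ a b d : ℝ, 0 ≤ a ∧ 0 ≤ b ∧ a + b = n ∧ (d = a - b ∨ d = b - a) ∧
      |∑ t ∈ Finset.range n, g t * (-1) ^ visits (W j) x t - κ * d| ≤ 5 * E ∧
      ∑ t ∈ Finset.range n, Rt δ (rot x t) + 1 / 16 * √(a * b) ≤ TT x n := by
  have hqn : 0 < Q j := lt_of_lt_of_le (by norm_num) (Q_ge j)
  have hq := Q_pos j
  have hE0 : 0 ≤ E := (abs_nonneg _).trans (hG 0 (Nat.zero_le _))
  have hsub : ∀ s t : ℕ, s < t → t < n → rot x s ∈ W j → rot x t ∈ W j →
      t = s + Q j ∨ t = s + 2 * Q j := fun s t hst htn hs ht => by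
    refine two_visits h2 h4 h5 h6 j x s t hst ?_ hs ht
    have h7 : (t : ℝ) ≤ n := by exact_mod_cast htn.le
    have := th_pos h2 j
    nlinarith
  by_cases hV : ∃ t, t < n ∧ rot x t ∈ W j
  swap
  · -- no visit
    right
    have hno : ∀ s < n, rot x s ∉ W j := fun s hs hW => hV ⟨s, hs, hW⟩
    refine ⟨n, 0, n, Nat.cast_nonneg n, le_rfl, by ring, Or.inl (by ring), ?_, ?_⟩
    · have e : ∑ t ∈ Finset.range n, g t * (-1) ^ visits (W j) x t = ∑ t ∈ Finset.range n, g t := by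
        refine Finset.sum_congr rfl fun t ht => ?_
        rw [Finset.mem_range] at ht
        rw [visits_none (W j) x n hno t ht.le, pow_zero, mul_one]
      rw [e]
      have := hG n le_rfl
      linarith
    · rw [mul_zero, Real.sqrt_zero, mul_zero, add_zero]
      exact Finset.sum_le_sum fun t ht => by
        rw [Finset.mem_range] at ht
        exact Rt_le_R hc1 (hF t ht).1 (hF t ht).2 δ
  classical
  set v := Nat.find hV with hvdef
  obtain ⟨hvn, hvW⟩ := Nat.find_spec hV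
  rw [← hvdef] at hvn hvW
  have hmin : ∀ s < v, rot x s ∉ W j := fun s hs hW => Nat.find_min hV hs ⟨by omega, hW⟩
  by_cases h3v : v + 2 * Q j < n ∧ rot x (v + 2 * Q j) ∈ W j
  · left
    exact ⟨_, h3v.1, third h2 h3 h6 j x v hvW h3v.2⟩
  right
  by_cases h2v : v + Q j < n ∧ rot x (v + Q j) ∈ W j
  · -- two visits
    obtain ⟨h2n, h2W⟩ := h2v
    have hall : ∀ s < n, rot x s ∈ W j → s = v ∨ s = v + Q j := by
      intro s hs hW
      rcases lt_trichotomy s v with h | h | h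
      · exact absurd hW (hmin s h)
      · exact Or.inl h
      · rcases hsub v s h hs hvW hW with h' | h'
        · exact Or.inr h'
        · exact absurd ⟨h' ▸ hs, h' ▸ hW⟩ h3v
    have hsum : ∑ t ∈ Finset.range n, g t * (-1) ^ visits (W j) x t =
        2 * ∑ t ∈ Finset.range (v + 1), g t - 2 * ∑ t ∈ Finset.range (v + Q j + 1), g t +
          ∑ t ∈ Finset.range n, g t := by
      have e : ∀ t ∈ Finset.range n, g t * (-1) ^ visits (W j) x t =
          g t - 2 * (g t * (if v < t then 1 else 0)) + 2 * (g t * (if v + Q j < t then 1 else 0)) := by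
        intro t ht
        rw [Finset.mem_range] at ht
        rw [visits_two (W j) x n v (v + Q j) (by omega) hvW h2W hall t ht.le]
        by_cases ha : v < t
        · by_cases hb : v + Q j < t
          · simp only [if_pos ha, if_pos hb]; norm_num
          · simp only [if_pos ha, if_neg hb]; ring
        · have hb : ¬ v + Q j < t := by omega
          simp only [if_neg ha, if_neg hb]; ring
      rw [Finset.sum_congr rfl e, Finset.sum_add_distrib, Finset.sum_sub_distrib, ← Finset.mul_sum,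
        ← Finset.mul_sum, sum_after g v n hvn, sum_after g (v + Q j) n h2n]
      ring
    have hnq : (Q j : ℝ) ≤ n := by
      have : Q j ≤ n := by omega
      exact_mod_cast this
    refine ⟨n - Q j, Q j, n - Q j - Q j, by linarith, hq.le, by ring, Or.inl (by ring), ?_, ?_⟩
    · rw [hsum]
      have g1 := hG (v + 1) (by omega)
      have g2 := hG (v + Q j + 1) (by omega)
      have g3 := hG n le_rfl
      push_cast at g1 g2 g3
      rw [abs_le] at g1 g2 g3 ⊢
      constructor <;> nlinarith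
    · obtain ⟨M1, hM1, hT1⟩ := np_before h2 h3 h6 hc1 j x n hF hδ v hvn hvW hD hs
      obtain ⟨M2, hM2, hT2⟩ := np_after h2 h3 h6 hc1 j x n hF hδ (v + Q j) h2n h2W hD hs
      have hM1r : ((v : ℝ) + 1) ≤ M1 * Q j := by exact_mod_cast hM1
      have hM2r : (n : ℝ) - (v + Q j) ≤ M2 * Q j := by
        have h7 : n ≤ M2 * Q j + (v + Q j) := by omega
        have h8 : (n : ℝ) ≤ M2 * Q j + (v + Q j) := by exact_mod_cast h7
        linarith
      rcases le_total ((M1 : ℝ) * Q j) (M2 * Q j) with hle | hle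
      · have := sqrt_ab (M := (M2 : ℝ)) (a := n - Q j) (b := Q j) hq (Nat.cast_nonneg _) (by linarith) hq.le le_rfl (by linarith)
        linarith
      · have := sqrt_ab (M := (M1 : ℝ)) (a := n - Q j) (b := Q j) hq (Nat.cast_nonneg _) (by linarith) hq.le le_rfl (by linarith)
        linarith
  · -- one visit
    have hall : ∀ s < n, rot x s ∈ W j → s = v := by
      intro s hs hW
      rcases lt_trichotomy s v with h | h | h
      · exact absurd hW (hmin s h)
      · exact h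
      · rcases hsub v s h hs hvW hW with h' | h'
        · exact absurd ⟨h' ▸ hs, h' ▸ hW⟩ h2v
        · exact absurd ⟨h' ▸ hs, h' ▸ hW⟩ h3v
    have hsum : ∑ t ∈ Finset.range n, g t * (-1) ^ visits (W j) x t =
        2 * ∑ t ∈ Finset.range (v + 1), g t - ∑ t ∈ Finset.range n, g t := by
      have e : ∀ t ∈ Finset.range n, g t * (-1) ^ visits (W j) x t =
          g t - 2 * (g t * (if v < t then 1 else 0)) := by
        intro t ht
        rw [Finset.mem_range] at ht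
        rw [visits_one (W j) x n v hvW hall t ht.le]
        by_cases ha : v < t
        · simp only [if_pos ha]; ring
        · simp only [if_neg ha]; ring
      rw [Finset.sum_congr rfl e, Finset.sum_sub_distrib, ← Finset.mul_sum, sum_after g v n hvn]
      ring
    have hvr : (v : ℝ) + 1 ≤ n := by exact_mod_cast hvn
    have hbound : |∑ t ∈ Finset.range n, g t * (-1) ^ visits (W j) x t -
        κ * ((v + 1) - (n - (v + 1)))| ≤ 5 * E := by
      rw [hsum]
      have g1 := hG (v + 1) (by omega)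
      have g3 := hG n le_rfl
      push_cast at g1 g3
      rw [abs_le] at g1 g3 ⊢
      constructor <;> nlinarith
    rcases next_visit h2 h3 h6 j x v hvW with hnx | hpv
    · -- the visit is at the end
      have hend : n ≤ v + Q j := by
        by_contra hcon
        exact h2v ⟨by omega, hnx⟩
      have hendr : (n : ℝ) ≤ v + Q j := by exact_mod_cast hend
      obtain ⟨M1, hM1, hT1⟩ := np_before h2 h3 h6 hc1 j x n hF hδ v hvn hvW hD hs
      have hM1r : ((v : ℝ) + 1) ≤ M1 * Q j := by exact_mod_cast hM1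
      have hv0 : (0 : ℝ) ≤ v := Nat.cast_nonneg v
      refine ⟨v + 1, n - (v + 1), _, by linarith, by linarith, by ring, Or.inl rfl, hbound, ?_⟩
      have := sqrt_ab (M := (M1 : ℝ)) (a := v + 1) (b := n - (v + 1)) hq (Nat.cast_nonneg _)
        (by linarith) (by linarith) (by linarith) (by linarith)
      linarith
    · -- the visit is at the beginning
      have hbeg : v < Q j := by
        by_contra hcon
        push Not at hcon
        exact hmin (v - Q j) (by omega) (hpv (v - Q j) (by omega))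
      have hbegr : (v : ℝ) + 1 ≤ Q j := by exact_mod_cast hbeg
      obtain ⟨M2, hM2, hT2⟩ := np_after h2 h3 h6 hc1 j x n hF hδ v hvn hvW hD hs
      have hM2r : (n : ℝ) - v ≤ M2 * Q j := by
        have h7 : n ≤ M2 * Q j + v := by omega
        have h8 : (n : ℝ) ≤ M2 * Q j + v := by exact_mod_cast h7
        linarith
      have hv0 : (0 : ℝ) ≤ v := Nat.cast_nonneg v
      refine ⟨n - (v + 1), v + 1, _, by linarith, by linarith, by ring, Or.inr rfl, hbound, ?_⟩
      have := sqrt_ab (M := (M2 : ℝ)) (a := n - (v + 1)) (b := v + 1) hq (Nat.cast_nonneg _)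
        (by linarith) (by linarith) (by linarith) (by linarith)
      linarith

/-- the cost of a very near pass -/
theorem exceptional (h2 : A2Stm) (h6 : A6Stm) (hc1 : C1Stm) (j : ℕ) (x : T1) (n : ℕ) (hF : Free x n)
    (t : ℕ) (htn : t < n) (ht : ‖rot x t - (be : T1)‖ ≤ be - uu (j + 1)) :
    (Q j : ℝ) ^ 3 / 4 ≤ TT x n := by
  have hq := Q_ge' j
  have h1 : R (rot x t) ≤ TT x n := by
    refine Finset.single_le_sum (f := fun t => R (rot x t)) (fun s hs => ?_) (Finset.mem_range.2 htn)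
    rw [Finset.mem_range] at hs
    exact R_pos hc1 (hF s hs).1 (hF s hs).2
  refine le_trans ?_ h1
  refine le_trans ?_ (R_ge_r hc1 (hF t htn).1 (hF t htn).2)
  have b := norm_pos_iff.2 (sub_ne_zero.2 (hF t htn).2)
  have heta := eta_pos h6 j
  have h3 := hc1.1 (show ‖rot x t - (be : T1)‖ ∈ Ioi (0 : ℝ) from b)
    (show be - uu (j + 1) ∈ Ioi (0 : ℝ) from heta) ht
  refine le_trans ?_ h3
  refine le_trans ?_ (hc1.2.2.2 _ heta)
  set η := be - uu (j + 1) with hη
  have h4 : η * ((Q j : ℝ) ^ 3) ^ 2 ≤ 3.003 := by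
    have h5 := th_mul h2 (j + 1)
    rw [Q_succ] at h5
    push_cast at h5
    have h7 := (h6.2 j).2.1
    have h8 : η * ((Q j : ℝ) ^ 3) ^ 2 ≤ 3 * th (j + 1) * ((Q j : ℝ) ^ 3) ^ 2 :=
      mul_le_mul_of_nonneg_right h7 (by positivity)
    linarith
  have h9 : √η * (Q j : ℝ) ^ 3 ≤ 1.75 := by
    have h10 : √η * (Q j : ℝ) ^ 3 = √(η * ((Q j : ℝ) ^ 3) ^ 2) := by
      rw [Real.sqrt_mul heta.le, Real.sqrt_sq (by positivity)]
    rw [h10]
    refine Real.sqrt_le_iff.2 ⟨by norm_num, ?_⟩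
    norm_num at h4 ⊢
    linarith
  have hs : 0 < √η := Real.sqrt_pos.2 heta
  have h11 : (Q j : ℝ) ^ 3 / 4 + 1 / 2 ≤ 1 / (2 * √η) := by
    rw [le_div_iff₀ (by positivity)]
    have hq3 : (1024 : ℝ) ^ 3 ≤ (Q j : ℝ) ^ 3 := by gcongr
    have h12 : √η ≤ 1 / 1000 := by
      by_contra hcon
      push Not at hcon
      nlinarith
    nlinarith
  linarith

/-- the algebra of the sum of signs -/
theorem sq_bound {n a b d κ T e : ℝ} (ha : 0 ≤ a) (hb : 0 ≤ b) (hab : a + b = n)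
    (hd : d = a - b ∨ d = b - a) (hκ : 1 / 2 ≤ κ) (hT : |T - κ * d| ≤ 5 * (2 * (e * n))) (he : 0 ≤ e) :
    (n ^ 2 - (T / κ) ^ 2) / 4 ≤ a * b + 10 * e * n ^ 2 := by
  have hκ0 : 0 < κ := by linarith
  have hn : 0 ≤ n := by linarith
  have hTk : |T / κ - d| ≤ 20 * e * n := by
    have e1 : T / κ - d = (T - κ * d) / κ := by field_simp
    rw [e1, abs_div, abs_of_pos hκ0, div_le_iff₀ hκ0]
    have h1 : 0 ≤ e * n := mul_nonneg he hn
    nlinarith
  set w := T / κ - d with hw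
  have e2 : T / κ = d + w := by rw [hw]; ring
  rw [e2]
  have hd1 : |d| ≤ n := by
    rcases hd with rfl | rfl
    · rw [abs_le]; constructor <;> linarith
    · rw [abs_le]; constructor <;> linarith
  have hdw : |d * w| ≤ n * (20 * e * n) := by
    rw [abs_mul]
    exact mul_le_mul hd1 hTk (abs_nonneg _) hn
  have hdw' := (abs_le.1 hdw).1
  have hd2 : d ^ 2 = (a - b) ^ 2 := by
    rcases hd with rfl | rfl
    · rfl
    · ring
  have e3 : (d + w) ^ 2 = d ^ 2 + 2 * (d * w) + w ^ 2 := by ring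
  rw [e3, hd2, ← hab]
  rw [← hab] at hdw'
  nlinarith [sq_nonneg w]

theorem sqrt_half {n w : ℝ} (hn : 0 ≤ n) : √((n ^ 2 - w ^ 2) / 4) ≤ n / 2 := by
  refine Real.sqrt_le_iff.2 ⟨by positivity, ?_⟩
  nlinarith [sq_nonneg w]

theorem sqrt_split {X A m n : ℝ} (hA : 0 ≤ A) (hm : 0 ≤ m) (hn : 0 ≤ n)
    (h : X ≤ A + 10 * (m ^ 2 / 100) * n ^ 2) : √X ≤ √A + 4 / 10 * m * n := by
  have c0 : 0 ≤ √A := Real.sqrt_nonneg _
  have c1 : √A ^ 2 = A := Real.sq_sqrt hA
  refine Real.sqrt_le_iff.2 ⟨by positivity, h.trans ?_⟩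
  have c2 : 0 ≤ √A * (4 / 10 * m * n) := by positivity
  have c3 : 0 ≤ m ^ 2 * n ^ 2 := by positivity
  nlinarith

/-- E1 -/
theorem e1 (h1 : A1Stm) (h2 : A2Stm) (h3 : A3Stm) (h4 : A4Stm) (h5 : A5Stm) (h6 : A6Stm) (h7 : A7Stm)
    (hc1 : C1Stm) (hc2 : C2Stm) (hd1 : D1Stm) : E1Stm := by
  intro κ hκ ε hε
  obtain ⟨hκ1, hκ2, hκ3⟩ := hκ
  set m : ℝ := min 1 ε with hm
  have hm0 : 0 < m := lt_min one_pos hε
  have hm1 : m ≤ 1 := min_le_left _ _
  have hmε : m ≤ ε := min_le_right _ _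
  set e : ℝ := m ^ 2 / 100 with he
  have he0 : 0 < e := by positivity
  obtain ⟨j0, C, hj0, hK⟩ := hκ3 e he0
  obtain ⟨δ, hδ, n1, hn1⟩ := hc2 e he0
  set ρ : ℝ := 4 * (1 / 2 + r δ) with hρ
  have hρ0 : 0 ≤ ρ := by
    have := hc1.2.1 δ hδ
    linarith
  set K : ℝ := max (max (1 / δ) (ρ ^ 2)) (max (tb + 1) (10 * |C| / e)) with hKdef
  set J : ℕ := max j0 ⌈K⌉₊ with hJ
  have hKJ : K ≤ Q J := by
    have a1 : K ≤ (⌈K⌉₊ : ℝ) := Nat.le_ceil K
    have a2 : (⌈K⌉₊ : ℝ) ≤ (Q J : ℝ) := by exact_mod_cast (le_max_right _ _).trans (Q_self J)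
    exact a1.trans a2
  refine ⟨max n1 (Q J ^ 2 + 1), fun n hn x hF => ?_⟩
  have hnn1 : n1 ≤ n := (le_max_left _ _).trans hn
  have hnJ : Q J ^ 2 + 1 ≤ n := (le_max_right _ _).trans hn
  have hex : ∃ j, 10 * n ≤ Q j ^ 2 := by
    refine ⟨10 * n, ?_⟩
    have a1 := Q_self (10 * n)
    have a2 := Q_ge (10 * n)
    nlinarith
  classical
  set j := Nat.find hex with hjdef
  have hj : 10 * n ≤ Q j ^ 2 := Nat.find_spec hex
  have hJj : J < j := by
    by_contra hcon
    push Not at hcon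
    have a1 : Q j ≤ Q J := Q_mono hcon
    have a2 : Q j ^ 2 ≤ Q J ^ 2 := Nat.pow_le_pow_left a1 2
    omega
  have hj1 : Q (j - 1) ^ 2 < 10 * n := by
    have := Nat.find_min hex (show j - 1 < j by omega)
    omega
  have hPJ : (Q J : ℝ) ≤ Q (j - 1) := by exact_mod_cast Q_mono (show J ≤ j - 1 by omega)
  have hqJ : (Q J : ℝ) ≤ Q j := by exact_mod_cast Q_mono hJj.le
  have hjr : 10 * (n : ℝ) ≤ (Q j : ℝ) ^ 2 := by exact_mod_cast hj
  have hj1r : (Q (j - 1) : ℝ) ^ 2 < 10 * n := by exact_mod_cast hj1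
  have hn0 : (0 : ℝ) ≤ n := Nat.cast_nonneg n
  have hq := Q_ge' j
  have hq0 := Q_pos j
  have hP0 := Q_pos (j - 1)
  have hth := th_pos h2 j
  have hthm := th_mul h2 j
  have hKq : K ≤ Q j := hKJ.trans hqJ
  have hKP : K ≤ Q (j - 1) := hKJ.trans hPJ
  have hnth : (n : ℝ) * th j ≤ 1 / 2 := by
    have d1 := mul_le_mul_of_nonneg_right hjr hth.le
    linarith
  have hDq : ((n : ℝ) / Q j + 3) * th j ≤ 1 / Q j := by
    have a1 : (n : ℝ) / Q j ≤ Q j / 10 := by
      rw [div_le_iff₀ hq0]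
      nlinarith
    rw [le_div_iff₀ hq0]
    have a2 : ((n : ℝ) / Q j + 3) * th j * Q j ≤ ((Q j : ℝ) / 10 + 3) * th j * Q j := by
      gcongr
    refine a2.trans ?_
    have a3 : ((Q j : ℝ) / 10 + 3) ≤ Q j * (103 / 1000) := by linarith
    have a4 : ((Q j : ℝ) / 10 + 3) * th j * Q j ≤ (Q j * (103 / 1000)) * th j * Q j := by
      gcongr
    nlinarith
  have hDδ : ((n : ℝ) / Q j + 3) * th j ≤ δ := by
    refine hDq.trans ?_
    have a1 : 1 / δ ≤ Q j := (le_max_left _ _).trans ((le_max_left _ _).trans hKq)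
    rw [div_le_iff₀ hδ] at a1
    rw [div_le_iff₀ hq0]
    linarith
  have hsρ : √(((n : ℝ) / Q j + 3) * th j) * ρ ≤ 1 := by
    have a1 : ρ ^ 2 ≤ Q j := (le_max_right _ _).trans ((le_max_left _ _).trans hKq)
    have a2 : √(((n : ℝ) / Q j + 3) * th j) * ρ ≤ √(1 / Q j) * ρ :=
      mul_le_mul_of_nonneg_right (Real.sqrt_le_sqrt hDq) hρ0
    refine a2.trans ?_
    have a3 : √(1 / (Q j : ℝ)) * ρ = √(1 / (Q j : ℝ) * ρ ^ 2) := by
      rw [Real.sqrt_mul (by positivity), Real.sqrt_sq hρ0]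
    rw [a3, Real.sqrt_le_one]
    rw [one_div, inv_mul_le_iff₀ hq0]
    linarith
  have hCP : C * (Q (j - 1) : ℝ) ≤ e * n := by
    have a1 : 10 * |C| / e ≤ Q (j - 1) := (le_max_right _ _).trans ((le_max_right _ _).trans hKP)
    rw [div_le_iff₀ he0] at a1
    have a2 : C ≤ |C| := le_abs_self C
    have a3 : C * (Q (j - 1) : ℝ) ≤ |C| * Q (j - 1) := mul_le_mul_of_nonneg_right a2 hP0.le
    have a4 : 10 * |C| * (Q (j - 1) : ℝ) ≤ (Q (j - 1) : ℝ) * e * Q (j - 1) :=
      mul_le_mul_of_nonneg_right a1 hP0.le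
    have a5 : e * (Q (j - 1) : ℝ) ^ 2 ≤ e * (10 * n) := mul_le_mul_of_nonneg_left hj1r.le he0.le
    have a6 : (Q (j - 1) : ℝ) * e * Q (j - 1) = e * (Q (j - 1) : ℝ) ^ 2 := by ring
    linarith
  have hG : ∀ l ≤ n, |∑ t ∈ Finset.range l, (-1 : ℝ) ^ Psi j (rot x t) - κ * l| ≤ 2 * (e * n) := by
    intro l hl
    have a1 := hK j ((le_max_left j0 _).trans hJj.le) l x
    have a2 : (l : ℝ) ≤ n := by exact_mod_cast hl
    have a3 : e * l ≤ e * n := mul_le_mul_of_nonneg_left a2 he0.le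
    linarith
  have hSS : SS x n = (-1) ^ Psi j x *
      ∑ t ∈ Finset.range n, (-1 : ℝ) ^ Psi j (rot x t) * (-1) ^ visits (W j) x t := by
    unfold SS
    rw [Finset.mul_sum]
    refine Finset.sum_congr rfl fun t _ => ?_
    rw [hd1 j x t, mul_assoc]
  have hSS2 : (SS x n / κ) ^ 2 =
      ((∑ t ∈ Finset.range n, (-1 : ℝ) ^ Psi j (rot x t) * (-1) ^ visits (W j) x t) / κ) ^ 2 := by
    rw [hSS, mul_div_assoc, mul_pow, ← pow_mul, mul_comm (Psi j x) 2, pow_mul]
    norm_num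
  rcases dichotomy h2 h3 h4 h5 h6 hc1 j x n hnth hF hδ hDδ hsρ
    (fun t => (-1 : ℝ) ^ Psi j (rot x t)) κ (2 * (e * n)) hG with ⟨t, htn, ht⟩ | ⟨a, b, d, ha, hb, hab, hd, hT, hTT⟩
  · -- exceptional case
    have a1 := exceptional h2 h6 hc1 j x n hF t htn ht
    have a2 : √(((n : ℝ) ^ 2 - (SS x n / κ) ^ 2) / 4) ≤ n / 2 := sqrt_half hn0
    have a3 : tb + 1 ≤ Q j := (le_max_left _ _).trans ((le_max_right _ _).trans hKq)
    have a4 : (tb + 1) * n ≤ Q j * n := mul_le_mul_of_nonneg_right a3 hn0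
    have a5 : (Q j : ℝ) * (10 * n) ≤ Q j * (Q j : ℝ) ^ 2 := mul_le_mul_of_nonneg_left hjr hq0.le
    have a6 : 0 ≤ ε * n := by positivity
    have a7 : (Q j : ℝ) * (Q j : ℝ) ^ 2 = (Q j : ℝ) ^ 3 := by ring
    have a8 : 0 ≤ (Q j : ℝ) ^ 3 := by positivity
    linarith
  · -- the main case
    have b1 : ((n : ℝ) ^ 2 - (SS x n / κ) ^ 2) / 4 ≤ a * b + 10 * e * (n : ℝ) ^ 2 := by
      rw [hSS2]
      exact sq_bound ha hb hab hd hκ1 hT he0.le
    have b2 : √(((n : ℝ) ^ 2 - (SS x n / κ) ^ 2) / 4) ≤ √(a * b) + 4 / 10 * m * n :=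
      sqrt_split (mul_nonneg ha hb) hm0.le hn0 b1
    have b3 := hn1 n hnn1 x
    have b4 : m * n ≤ ε * n := mul_le_mul_of_nonneg_right hmε hn0
    have b5 : e * n ≤ m * n / 100 := by
      have : e ≤ m / 100 := by
        have d1 : m * m ≤ m * 1 := mul_le_mul_of_nonneg_left hm1 hm0.le
        rw [he]
        linarith
      have := mul_le_mul_of_nonneg_right this hn0
      linarith
    have b6 : 0 ≤ m * n := by positivity
    linarith

end

end Pool.Agent.Y125.RS
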