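import Pool.Agent.Y395.RS.Stm

set_option autoImplicit false

/-! Project RS (helper395), job RS-DEG. -/

namespace Pool.Agent.Y125.RS

open Finset Pool.Agent.Y395.RS

/-- the number of small subsets -/
lemma small_subsets {α : Type} (T : Finset α) (r : ℕ) :
    cnt T (fun A => A.card ≤ r) ≤ ((T.card : ℝ) + 1) ^ r := by
  classical
  rw [cnt_eq]
  have h1 : T.powerset.filter (fun A => A.card ≤ r) ⊆
      (range (r + 1)).biUnion fun i => powersetCard i T := by
    intro A hA
    rw [mem_filter, mem_powerset] at hA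
    rw [mem_biUnion]
    exact ⟨A.card, mem_range.mpr (by omega), mem_powersetCard.mpr ⟨hA.1, rfl⟩⟩
  have h2 : (T.powerset.filter (fun A => A.card ≤ r)).card ≤ (T.card + 1) ^ r := by
    calc (T.powerset.filter (fun A => A.card ≤ r)).card
        ≤ ((range (r + 1)).biUnion fun i => powersetCard i T).card := card_le_card h1
      _ ≤ ∑ i ∈ range (r + 1), (powersetCard i T).card := card_biUnion_le
      _ = ∑ i ∈ range (r + 1), T.card.choose i := by simp_rw [card_powersetCard]
      _ ≤ ∑ i ∈ range (r + 1), T.card ^ i * 1 ^ (r - i) * r.choose i := by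
          apply sum_le_sum
          intro i hi
          rw [mem_range] at hi
          calc T.card.choose i ≤ T.card ^ i := Nat.choose_le_pow _ _
            _ = T.card ^ i * 1 ^ (r - i) * 1 := by ring
            _ ≤ T.card ^ i * 1 ^ (r - i) * r.choose i :=
                Nat.mul_le_mul_left _ (Nat.choose_pos (by omega))
      _ = (T.card + 1) ^ r := (add_pow _ _ _).symm
  exact_mod_cast h2

theorem deg : DEG := by
  intro V _ _ G D1 D2 hn hD
  classical
  set n := Fintype.card V with hnd
  have hn0 : (0 : ℝ) < n := by exact_mod_cast (by omega : 0 < n)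
  have hn1 : (1 : ℝ) ≤ n := by exact_mod_cast (by omega : 1 ≤ n)
  -- the numerical inequality
  have hnum : (n : ℝ) ^ (D1 + 4) ≤ 2 ^ D2 := by
    have h1 : n ≤ 2 ^ (Nat.log 2 n + 1) := (Nat.lt_pow_succ_log_self (by norm_num) n).le
    have h2 : n ^ (D1 + 4) ≤ 2 ^ D2 := by
      calc n ^ (D1 + 4) ≤ (2 ^ (Nat.log 2 n + 1)) ^ (D1 + 4) := Nat.pow_le_pow_left h1 _
        _ = 2 ^ ((D1 + 4) * (Nat.log 2 n + 1)) := by rw [← pow_mul, mul_comm]
        _ ≤ 2 ^ D2 := Nat.pow_le_pow_right (by norm_num) hD
    exact_mod_cast h2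
  have key : ∀ v : V, cnt (ed G) (fun F => D2 < (nb G univ v).card ∧
      (nb (gr F) univ v).card ≤ D1 + 2) ≤ 1 / (n : ℝ) ^ 2 * 2 ^ (ed G).card := by
    intro v
    by_cases hv : D2 < (nb G univ v).card
    swap
    · refine le_trans (cnt_mono (Q := fun _ => False) fun F _ h => hv h.1) ?_
      rw [cnt_false]; positivity
    set T : Finset (Sym2 V) := (nb G univ v).image fun y => s(v, y) with hT
    have hinj : Function.Injective fun y : V => s(v, y) := by
      intro y y' h
      have h' : s(v, y) = s(v, y') := h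
      rw [Sym2.congr_right] at h'
      exact h'
    have hTcard : T.card = (nb G univ v).card := card_image_of_injective _ hinj
    have hTe : T ⊆ ed G := by
      intro e he
      rw [hT, mem_image] at he
      obtain ⟨y, hy, rfl⟩ := he
      rw [mem_ed]
      exact ((mem_nb G univ v y).mp hy).2
    apply cnt_cond (ed G) T hTe
    intro F0 _
    have h1 : cnt T (fun A => D2 < (nb G univ v).card ∧ (nb (gr (F0 ∪ A)) univ v).card ≤ D1 + 2) ≤
        cnt T (fun A => A.card ≤ D1 + 2) := by
      apply cnt_mono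
      intro A hA h
      refine le_trans ?_ h.2
      have h2 : A ⊆ (nb (gr (F0 ∪ A)) univ v).image fun y => s(v, y) := by
        intro e he
        have he' := hA he
        rw [hT, mem_image] at he'
        obtain ⟨y, hy, rfl⟩ := he'
        rw [mem_image]
        refine ⟨y, ?_, rfl⟩
        rw [mem_nb, gr_adj]
        exact ⟨mem_univ _, mem_union_right _ he, ((mem_nb G univ v y).mp hy).2.ne⟩
      exact (card_le_card h2).trans card_image_le
    refine (h1.trans (small_subsets T (D1 + 2))).trans ?_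
    have h3 : (T.card : ℝ) + 1 ≤ n := by
      have h4 : T.card + 1 ≤ n := by
        rw [hTcard]
        have h5 : v ∉ nb G univ v := by
          rw [mem_nb]
          exact fun h => G.loopless.irrefl v h.2
        have h6 := card_lt_univ_of_notMem h5
        omega
      exact_mod_cast h4
    have h7 : (2 : ℝ) ^ D2 ≤ 2 ^ T.card := by
      apply pow_le_pow_right₀ (by norm_num)
      rw [hTcard]; exact hv.le
    calc ((T.card : ℝ) + 1) ^ (D1 + 2) ≤ (n : ℝ) ^ (D1 + 2) := by gcongr
      _ = 1 / (n : ℝ) ^ 2 * (n : ℝ) ^ (D1 + 4) := by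
          rw [pow_add (n : ℝ) D1 4, pow_add (n : ℝ) D1 2]
          field_simp
      _ ≤ 1 / (n : ℝ) ^ 2 * 2 ^ T.card := by
          gcongr
          exact hnum.trans h7
  calc cnt (ed G) (fun F => ∃ v : V, D2 < (nb G univ v).card ∧
        (nb (gr F) univ v).card ≤ D1 + 2)
      ≤ cnt (ed G) (fun F => ∃ v ∈ (univ : Finset V), D2 < (nb G univ v).card ∧
        (nb (gr F) univ v).card ≤ D1 + 2) := cnt_mono fun F _ ⟨v, h⟩ => ⟨v, mem_univ _, h⟩
    _ ≤ ∑ v ∈ (univ : Finset V), cnt (ed G) (fun F => D2 < (nb G univ v).card ∧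
        (nb (gr F) univ v).card ≤ D1 + 2) := cnt_ex _ _ _
    _ ≤ ∑ _v ∈ (univ : Finset V), 1 / (n : ℝ) ^ 2 * 2 ^ (ed G).card :=
        sum_le_sum fun v _ => key v
    _ = 1 / (n : ℝ) * 2 ^ (ed G).card := by
        rw [sum_const, card_univ, nsmul_eq_mul, ← hnd]
        field_simp

end Pool.Agent.Y125.RS
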