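import Pool.Agent.Y267.RS.Stm

set_option autoImplicit false
set_option linter.all false

/-! RS-E1: the visits to the arc `W`, and the near passes. -/

namespace Pool.Agent.Y125.RS

open Set Filter Topology MeasureTheory
open Pool.Agent.Y267.RS

noncomputable section

theorem norm_coe_le (z : ℝ) : ‖(z : T1)‖ ≤ |z| := by
  have := QuotientAddGroup.norm_mk_le_norm (S := AddSubgroup.zmultiples (1 : ℝ)) (m := z)
  rwa [Real.norm_eq_abs] at this

theorem Q_ge (j : ℕ) : 1024 ≤ Q j := by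
  unfold Q
  calc 1024 = 2 ^ 10 := by norm_num
    _ ≤ 2 ^ (10 * 3 ^ j) := Nat.pow_le_pow_right (by norm_num) (by
      have := Nat.one_le_pow j 3 (by norm_num)
      omega)

theorem Q_succ (j : ℕ) : Q (j + 1) = Q j ^ 3 := by
  unfold Q
  rw [← pow_mul]
  congr 1
  ring

theorem Q_mono : Monotone Q := by
  refine monotone_nat_of_le_succ fun j => ?_
  rw [Q_succ]
  exact Nat.le_self_pow (by norm_num) _

theorem Q_self (j : ℕ) : j ≤ Q j := by
  induction j with
  | zero => exact Nat.zero_le _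
  | succ j ih =>
    rw [Q_succ]
    have h1 := Q_ge j
    have h2 : Q j * 2 ≤ Q j ^ 3 := by
      have : Q j ^ 3 = Q j * (Q j * Q j) := by ring
      rw [this]
      exact Nat.mul_le_mul_left _ (by nlinarith)
    omega

theorem Q_ge' (j : ℕ) : (1024 : ℝ) ≤ (Q j : ℝ) := by exact_mod_cast Q_ge j

theorem Q_pos (j : ℕ) : (0 : ℝ) < (Q j : ℝ) := lt_of_lt_of_le (by norm_num) (Q_ge' j)

theorem th_pos (h2 : A2Stm) (j : ℕ) : 0 < th j :=
  lt_of_lt_of_le (by have := Q_pos j; positivity) (h2 j).1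

theorem th_mul (h2 : A2Stm) (j : ℕ) : th j * (Q j : ℝ) ^ 2 ≤ 1.001 := by
  have h := (h2 j).2
  have hq := Q_pos j
  rwa [le_div_iff₀ (by positivity)] at h

theorem len_lo (h6 : A6Stm) (j : ℕ) : be - uu j = 2 * th j + (be - uu (j + 1)) := by
  have := (h6.2 j).2.2.2.1
  linarith

theorem eta_pos (h6 : A6Stm) (j : ℕ) : 0 < be - uu (j + 1) := (h6.2 j).1

theorem eta_le (h6 : A6Stm) (j : ℕ) : be - uu (j + 1) ≤ 3 / 1000 * th j := by
  have h1 := (h6.2 j).2.1
  have h2 := (h6.2 j).2.2.1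
  linarith

theorem rot_add (h3 : A3Stm) (j : ℕ) (x : T1) (t l : ℕ) :
    rot x (t + l * Q j) = rot x t + (((l : ℝ) * th j : ℝ) : T1) := by
  unfold rot
  have e : (((t + l * Q j : ℕ) : ℝ) * al : ℝ) = (t : ℝ) * al + (l : ℝ) * ((Q j : ℝ) * al) := by
    push_cast; ring
  rw [e, AddCircle.coe_add, ← add_assoc]
  congr 1
  have : ∀ y : ℝ, (((l : ℝ) * y : ℝ) : T1) = l • (y : T1) := fun y => by
    rw [← nsmul_eq_mul, AddCircle.coe_nsmul]
  rw [this, this, h3 j]

/-- the arc of the level `j` -/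
abbrev W (j : ℕ) : Set T1 := arc (uu j) (be - uu j)

theorem two_visits (h2 : A2Stm) (h4 : A4Stm) (h5 : A5Stm) (h6 : A6Stm) (j : ℕ) (x : T1) (s t : ℕ)
    (hst : s < t) (hb : (t : ℝ) * th j ≤ 1 / 2) (hs : rot x s ∈ W j) (ht : rot x t ∈ W j) :
    t = s + Q j ∨ t = s + 2 * Q j := by
  obtain ⟨y, ⟨hy0, hy1⟩, hy⟩ := hs
  obtain ⟨y', ⟨hy0', hy1'⟩, hy'⟩ := ht
  have hth := th_pos h2 j
  have hq := Q_ge' j
  have hlen : be - uu j ≤ 2.003 * th j := by
    have := len_lo h6 j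
    have := eta_le h6 j
    linarith
  have hd : (((((t : ℤ) - s : ℤ) : ℝ) * al : ℝ) : T1) = ((y' - y : ℝ) : T1) := by
    have e1 : rot x t - rot x s = (((((t : ℤ) - s : ℤ) : ℝ) * al : ℝ) : T1) := by
      unfold rot
      rw [add_sub_add_left_eq_sub, ← AddCircle.coe_sub]
      congr 1
      push_cast
      ring
    rw [← e1, hy, hy', ← AddCircle.coe_sub]
    congr 1
    ring
  have hnorm : ‖(((((t : ℤ) - s : ℤ) : ℝ) * al : ℝ) : T1)‖ < 2.003 * th j := by
    rw [hd]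
    refine lt_of_le_of_lt (norm_coe_le _) ?_
    rw [abs_lt]
    constructor <;> linarith
  have hstr : (s : ℝ) < t := by exact_mod_cast hst
  have hs0 : (0 : ℝ) ≤ s := Nat.cast_nonneg s
  have habs : |((((t : ℤ) - s : ℤ)) : ℝ)| * th j ≤ 1 / 2 := by
    push_cast
    rw [abs_of_pos (by linarith)]
    have : ((t : ℝ) - s) * th j ≤ t * th j := by nlinarith
    linarith
  have hdvd : (Q j : ℤ) ∣ (t : ℤ) - s := by
    by_contra hn
    have h := h4 j ((t : ℤ) - s) habs hn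
    have hm := th_mul h2 j
    have h7 : 1 / (2 * (Q j : ℝ)) < 2.003 * th j := lt_of_le_of_lt h hnorm
    rw [div_lt_iff₀ (by positivity)] at h7
    nlinarith
  obtain ⟨l, hl⟩ := hdvd
  have hqi : (0 : ℤ) < Q j := by exact_mod_cast (lt_of_lt_of_le (by norm_num) (Q_ge j))
  have hl1 : 1 ≤ l := by
    by_contra hcon
    push Not at hcon
    have : (Q j : ℤ) * l ≤ 0 := mul_nonpos_of_nonneg_of_nonpos hqi.le (by omega)
    omega
  have hlr : (1 : ℝ) ≤ l := by exact_mod_cast hl1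
  have hcast : ((((t : ℤ) - s : ℤ)) : ℝ) = (Q j : ℝ) * l := by rw [hl]; push_cast; ring
  rw [hcast] at hnorm habs
  have hl5 : |(l : ℝ)| * th j ≤ 1 / 2 := by
    refine le_trans ?_ habs
    refine mul_le_mul_of_nonneg_right ?_ hth.le
    rw [abs_of_pos (by linarith), abs_of_pos (by positivity)]
    nlinarith
  rw [h5 j l hl5, abs_of_pos (by linarith)] at hnorm
  have hl3 : (l : ℝ) < 3 := by nlinarith
  have hl3' : l < 3 := by exact_mod_cast hl3
  have : l = 1 ∨ l = 2 := by omega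
  rcases this with rfl | rfl
  · left
    omega
  · right
    omega

theorem next_visit (h2 : A2Stm) (h3 : A3Stm) (h6 : A6Stm) (j : ℕ) (x : T1) (t : ℕ)
    (ht : rot x t ∈ W j) : rot x (t + Q j) ∈ W j ∨ ∀ s, s + Q j = t → rot x s ∈ W j := by
  obtain ⟨y, ⟨hy0, hy1⟩, hy⟩ := ht
  have hth := th_pos h2 j
  have hlen := len_lo h6 j
  have heta := eta_pos h6 j
  have h1 : ∀ s, rot x (s + Q j) = rot x s + ((th j : ℝ) : T1) := fun s => by
    have := rot_add h3 j x s 1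
    simpa using this
  by_cases hc : y + th j < be - uu j
  · left
    refine ⟨y + th j, ⟨by linarith, hc⟩, ?_⟩
    rw [h1, hy, ← AddCircle.coe_add]
    congr 1
    ring
  · right
    intro s hs
    have h2 := h1 s
    rw [hs, hy] at h2
    refine ⟨y - th j, ⟨by linarith, by linarith⟩, ?_⟩
    have e : uu j + (y - th j) = (uu j + y) - th j := by ring
    rw [e, AddCircle.coe_sub, h2, add_sub_cancel_right]

theorem third (h2 : A2Stm) (h3 : A3Stm) (h6 : A6Stm) (j : ℕ) (x : T1) (t : ℕ)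
    (ht : rot x t ∈ W j) (ht2 : rot x (t + 2 * Q j) ∈ W j) :
    ‖rot x (t + 2 * Q j) - (be : T1)‖ ≤ be - uu (j + 1) := by
  obtain ⟨y, ⟨hy0, hy1⟩, hy⟩ := ht
  obtain ⟨y', ⟨hy0', hy1'⟩, hy'⟩ := ht2
  have hth := th_pos h2 j
  have hq := Q_ge' j
  have hm := th_mul h2 j
  have hlen := len_lo h6 j
  have heta := eta_le h6 j
  have heta0 := eta_pos h6 j
  have hsmall : th j ≤ 1 / 1000 := by nlinarith
  have h1 := rot_add h3 j x t 2
  rw [hy, hy', ← AddCircle.coe_add] at h1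
  have e2 : (((uu j + y + (2 : ℕ) * th j : ℝ)) : T1) = ((uu j + y' : ℝ) : T1) := h1.symm
  have h7 : uu j + y + (2 : ℕ) * th j = uu j + y' := by
    refine (AddCircle.coe_eq_coe_iff_of_mem_Ico (p := (1 : ℝ)) (a := uu j) ?_ ?_).1 e2
    · constructor
      · push_cast; linarith
      · push_cast; linarith
    · constructor <;> linarith
  push_cast at h7
  rw [hy', ← AddCircle.coe_sub]
  refine (norm_coe_le _).trans ?_
  rw [abs_le]
  constructor <;> linarith

/-! ### visits -/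

theorem visits_none (A : Set T1) (x : T1) (n : ℕ) (h : ∀ s < n, rot x s ∉ A) (t : ℕ) (ht : t ≤ n) :
    visits A x t = 0 := by
  unfold visits
  refine Finset.sum_eq_zero fun s hs => ?_
  rw [Finset.mem_range] at hs
  unfold ind
  rw [if_neg (h s (by omega))]

theorem visits_one (A : Set T1) (x : T1) (n m : ℕ) (hm : rot x m ∈ A)
    (h : ∀ s < n, rot x s ∈ A → s = m) (t : ℕ) (ht : t ≤ n) :
    visits A x t = if m < t then 1 else 0 := by
  unfold visits
  have : ∀ s ∈ Finset.range t, ind A (rot x s) = if s = m then 1 else 0 := by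
    intro s hs
    rw [Finset.mem_range] at hs
    unfold ind
    by_cases h1 : s = m
    · rw [if_pos h1, h1, if_pos hm]
    · rw [if_neg h1, if_neg (fun hA => h1 (h s (by omega) hA))]
  rw [Finset.sum_congr rfl this, Finset.sum_ite_eq']
  simp

theorem visits_two (A : Set T1) (x : T1) (n m m' : ℕ) (hmm : m ≠ m') (hm : rot x m ∈ A)
    (hm' : rot x m' ∈ A) (h : ∀ s < n, rot x s ∈ A → s = m ∨ s = m') (t : ℕ) (ht : t ≤ n) :
    visits A x t = (if m < t then 1 else 0) + (if m' < t then 1 else 0) := by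
  unfold visits
  have : ∀ s ∈ Finset.range t, ind A (rot x s) = (if s = m then 1 else 0) + (if s = m' then 1 else 0) := by
    intro s hs
    rw [Finset.mem_range] at hs
    unfold ind
    by_cases h1 : s = m
    · rw [if_pos h1, h1, if_pos hm, if_neg hmm]
    · by_cases h2 : s = m'
      · rw [if_pos h2, h2, if_pos hm', if_neg (Ne.symm hmm)]
      · rw [if_neg h1, if_neg h2, if_neg (fun hA => (h s (by omega) hA).elim h1 h2)]
  rw [Finset.sum_congr rfl this, Finset.sum_add_distrib, Finset.sum_ite_eq', Finset.sum_ite_eq']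
  simp

theorem sum_after (g : ℕ → ℝ) (m n : ℕ) (h : m < n) :
    ∑ t ∈ Finset.range n, g t * (if m < t then 1 else 0) =
      ∑ t ∈ Finset.range n, g t - ∑ t ∈ Finset.range (m + 1), g t := by
  have h1 := Finset.sum_range_add_sum_Ico (fun t => g t * (if m < t then (1 : ℝ) else 0))
    (show m + 1 ≤ n by omega)
  have h2 := Finset.sum_range_add_sum_Ico g (show m + 1 ≤ n by omega)
  rw [← h1, ← h2]
  have h3 : ∑ t ∈ Finset.range (m + 1), g t * (if m < t then (1 : ℝ) else 0) = 0 := by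
    refine Finset.sum_eq_zero fun t ht => ?_
    rw [Finset.mem_range] at ht
    rw [if_neg (by omega), mul_zero]
  have h4 : ∑ t ∈ Finset.Ico (m + 1) n, g t * (if m < t then (1 : ℝ) else 0) =
      ∑ t ∈ Finset.Ico (m + 1) n, g t := by
    refine Finset.sum_congr rfl fun t ht => ?_
    rw [Finset.mem_Ico] at ht
    rw [if_pos (by omega), mul_one]
  rw [h3, h4]
  ring

/-! ### the roof function -/

theorem R_ge_r (hc1 : C1Stm) {z : T1} (h0 : z ≠ 0) (h1 : z ≠ (be : T1)) :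
    r ‖z - (be : T1)‖ ≤ R z := by
  unfold R
  have := hc1.2.1 ‖z‖ (norm_pos_iff.2 h0)
  linarith

theorem R_pos (hc1 : C1Stm) {z : T1} (h0 : z ≠ 0) (h1 : z ≠ (be : T1)) : 0 ≤ R z := by
  refine le_trans ?_ (R_ge_r hc1 h0 h1)
  have := hc1.2.1 ‖z - (be : T1)‖ (norm_pos_iff.2 (sub_ne_zero.2 h1))
  linarith

theorem Rt_le_R (hc1 : C1Stm) {z : T1} (h0 : z ≠ 0) (h1 : z ≠ (be : T1)) (δ : ℝ) :
    Rt δ z ≤ R z := by
  unfold R Rt
  have a := norm_pos_iff.2 h0
  have b := norm_pos_iff.2 (sub_ne_zero.2 h1)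
  have h2 := hc1.1 (show ‖z‖ ∈ Ioi (0 : ℝ) from a)
    (show max ‖z‖ δ ∈ Ioi (0 : ℝ) from lt_of_lt_of_le a (le_max_left _ _)) (le_max_left _ _)
  have h3 := hc1.1 (show ‖z - (be : T1)‖ ∈ Ioi (0 : ℝ) from b)
    (show max ‖z - (be : T1)‖ δ ∈ Ioi (0 : ℝ) from lt_of_lt_of_le b (le_max_left _ _)) (le_max_left _ _)
  linarith

/-- the extra cost of one near pass -/
theorem near_one (hc1 : C1Stm) {z : T1} (h0 : z ≠ 0) (h1 : z ≠ (be : T1)) {δ D : ℝ} (hδ : 0 < δ)
    (hD0 : 0 < D) (hD : D ≤ δ) (hz : ‖z - (be : T1)‖ ≤ D) (hs : √D * (4 * (1 / 2 + r δ)) ≤ 1) :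
    1 / (4 * √D) ≤ R z - Rt δ z := by
  have a := norm_pos_iff.2 h0
  have b := norm_pos_iff.2 (sub_ne_zero.2 h1)
  have h2 := hc1.1 (show ‖z‖ ∈ Ioi (0 : ℝ) from a)
    (show max ‖z‖ δ ∈ Ioi (0 : ℝ) from lt_of_lt_of_le a (le_max_left _ _)) (le_max_left _ _)
  have h3 := hc1.1 (show ‖z - (be : T1)‖ ∈ Ioi (0 : ℝ) from b) (show D ∈ Ioi (0 : ℝ) from hD0) hz
  have h4 := hc1.2.2.2 D hD0
  have hmax : max ‖z - (be : T1)‖ δ = δ := max_eq_right (hz.trans hD)
  unfold R Rt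
  rw [hmax]
  have hsD : 0 < √D := Real.sqrt_pos.2 hD0
  have h5 : 1 / 2 + r δ ≤ 1 / (4 * √D) := by
    rw [le_div_iff₀ (by positivity)]
    linarith
  have h6 : 1 / (2 * √D) = 2 * (1 / (4 * √D)) := by field_simp; norm_num
  linarith

theorem near_pass (h2 : A2Stm) (hc1 : C1Stm) (j : ℕ) (x : T1) (n : ℕ) (hF : Free x n) {δ : ℝ}
    (hδ : 0 < δ) (M : ℕ) (hM : 1 ≤ M) (tt : ℕ → ℕ) (hinj : Set.InjOn tt (Finset.range M : Set ℕ))
    (hlt : ∀ l < M, tt l < n) (hd : ∀ l < M, ‖rot x (tt l) - (be : T1)‖ ≤ ((l : ℝ) + 3) * th j)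
    (hD : ((M : ℝ) + 2) * th j ≤ δ) (hs : √(((M : ℝ) + 2) * th j) * (4 * (1 / 2 + r δ)) ≤ 1) :
    ∑ t ∈ Finset.range n, Rt δ (rot x t) + 1 / 8 * (√(M : ℝ) * Q j) ≤ TT x n := by
  have hth := th_pos h2 j
  have hMr : (1 : ℝ) ≤ M := by exact_mod_cast hM
  have hD0 : 0 < ((M : ℝ) + 2) * th j := by positivity
  have h3 : ∑ t ∈ (Finset.range M).image tt, (R (rot x t) - Rt δ (rot x t)) ≤
      ∑ t ∈ Finset.range n, (R (rot x t) - Rt δ (rot x t)) := by
    refine Finset.sum_le_sum_of_subset_of_nonneg ?_ ?_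
    · intro t ht
      rw [Finset.mem_image] at ht
      obtain ⟨l, hl, rfl⟩ := ht
      rw [Finset.mem_range] at hl ⊢
      exact hlt l hl
    · intro t ht _
      rw [Finset.mem_range] at ht
      have := Rt_le_R hc1 (hF t ht).1 (hF t ht).2 δ
      linarith
  rw [Finset.sum_image hinj, Finset.sum_sub_distrib (s := Finset.range n)] at h3
  have h4 : ∑ l ∈ Finset.range M, (1 / (4 * √(((M : ℝ) + 2) * th j))) ≤
      ∑ l ∈ Finset.range M, (R (rot x (tt l)) - Rt δ (rot x (tt l))) := by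
    refine Finset.sum_le_sum fun l hl => ?_
    rw [Finset.mem_range] at hl
    refine near_one hc1 (hF _ (hlt l hl)).1 (hF _ (hlt l hl)).2 hδ hD0 hD ?_ hs
    refine (hd l hl).trans ?_
    have : (l : ℝ) + 1 ≤ M := by exact_mod_cast hl
    nlinarith
  rw [Finset.sum_const, Finset.card_range, nsmul_eq_mul] at h4
  have h5 : 1 / 8 * (√(M : ℝ) * Q j) ≤ (M : ℝ) * (1 / (4 * √(((M : ℝ) + 2) * th j))) := by
    have hq := Q_pos j
    have hsD : 0 < √(((M : ℝ) + 2) * th j) := Real.sqrt_pos.2 hD0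
    have hsM : √(M : ℝ) * √(M : ℝ) = M := Real.mul_self_sqrt (by linarith)
    have hsM0 : 0 < √(M : ℝ) := Real.sqrt_pos.2 (by linarith)
    have h6 : √(((M : ℝ) + 2) * th j) * Q j ≤ 2 * √(M : ℝ) := by
      have h7 : √(((M : ℝ) + 2) * th j) * Q j = √(((M : ℝ) + 2) * th j * (Q j : ℝ) ^ 2) := by
        rw [Real.sqrt_mul hD0.le, Real.sqrt_sq hq.le]
      have h8 : 2 * √(M : ℝ) = √(4 * M) := by
        rw [Real.sqrt_mul (by norm_num)]
        congr 1
        rw [show (4 : ℝ) = 2 ^ 2 by norm_num, Real.sqrt_sq (by norm_num)]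
      rw [h7, h8]
      refine Real.sqrt_le_sqrt ?_
      have := th_mul h2 j
      nlinarith
    rw [mul_one_div, le_div_iff₀ (by positivity)]
    nlinarith
  have h9 : TT x n = ∑ t ∈ Finset.range n, R (rot x t) := rfl
  rw [h9]
  linarith

/-- distance to `be` of the near passes after a visit -/
theorem dist_after (h2 : A2Stm) (h3 : A3Stm) (h6 : A6Stm) (j : ℕ) (x : T1) (v : ℕ)
    (hv : rot x v ∈ W j) (l : ℕ) : ‖rot x (v + l * Q j) - (be : T1)‖ ≤ ((l : ℝ) + 3) * th j := by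
  obtain ⟨y, ⟨hy0, hy1⟩, hy⟩ := hv
  have hth := th_pos h2 j
  have hlen := len_lo h6 j
  have heta := eta_le h6 j
  have heta0 := eta_pos h6 j
  rw [rot_add h3, hy, ← AddCircle.coe_add, ← AddCircle.coe_sub]
  refine (norm_coe_le _).trans ?_
  have hl : (0 : ℝ) ≤ (l : ℝ) * th j := by positivity
  rw [abs_le]
  constructor <;> nlinarith

/-- distance to `be` of the near passes before a visit -/
theorem dist_before (h2 : A2Stm) (h3 : A3Stm) (h6 : A6Stm) (j : ℕ) (x : T1) (v : ℕ)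
    (hv : rot x v ∈ W j) (l : ℕ) (hl : l * Q j ≤ v) :
    ‖rot x (v - l * Q j) - (be : T1)‖ ≤ ((l : ℝ) + 3) * th j := by
  obtain ⟨y, ⟨hy0, hy1⟩, hy⟩ := hv
  have hth := th_pos h2 j
  have hlen := len_lo h6 j
  have heta := eta_le h6 j
  have heta0 := eta_pos h6 j
  have h1 := rot_add h3 j x (v - l * Q j) l
  rw [Nat.sub_add_cancel hl, hy] at h1
  have h4 : rot x (v - l * Q j) = ((uu j + y - l * th j : ℝ) : T1) := by
    rw [AddCircle.coe_sub, h1, add_sub_cancel_right]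
  rw [h4, ← AddCircle.coe_sub]
  refine (norm_coe_le _).trans ?_
  have hl : (0 : ℝ) ≤ (l : ℝ) * th j := by positivity
  rw [abs_le]
  constructor <;> nlinarith

end

end Pool.Agent.Y125.RS
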