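import Pool.Agent.Y393.RS.Stmts

set_option autoImplicit false

/-!
Project RS (helper393), job RS6: few vertices have a degree near the maximum degree
(`S_level → S_conc → S_few`).
-/

namespace Pool.Agent.Y125.RS

open Finset Filter Topology
open Pool.Agent.Y393.RS

section prob

variable {Ω : Type} [Fintype Ω]

lemma pr_eq (P : Ω → Prop) [DecidablePred P] :
    pr P = ((univ.filter P).card : ℝ) / (Fintype.card Ω : ℝ) := by
  unfold pr
  congr!

lemma pr_nonneg (P : Ω → Prop) : 0 ≤ pr P := by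
  unfold pr; positivity

lemma pr_mono {P Q : Ω → Prop} (h : ∀ ω, P ω → Q ω) : pr P ≤ pr Q := by
  classical
  unfold pr
  apply div_le_div_of_nonneg_right _ (by positivity)
  exact_mod_cast Finset.card_le_card (fun ω hω => by
    simp only [mem_filter, mem_univ, true_and] at hω ⊢
    exact h ω hω)

lemma pr_or {P Q : Ω → Prop} : pr (fun ω => P ω ∨ Q ω) ≤ pr P + pr Q := by
  classical
  rw [pr_eq, pr_eq, pr_eq, ← add_div]
  apply div_le_div_of_nonneg_right _ (by positivity)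
  rw [Finset.filter_or]
  exact_mod_cast Finset.card_union_le _ _

/-- Markov's inequality for the number of events which occur -/
lemma pr_markov {ι : Type} [Fintype ι] (S : Finset ι) (P : ι → Ω → Prop) {r : ℝ} (hr : 0 < r)
    [∀ ω, DecidablePred fun i => P i ω] :
    pr (fun ω => r < ((S.filter fun i => P i ω).card : ℝ)) ≤ (∑ i ∈ S, pr (P i)) / r := by
  classical
  rw [le_div_iff₀ hr]
  have h0 : ∀ i, pr (P i) = (((univ : Finset Ω).filter (P i)).card : ℝ) / (Fintype.card Ω : ℝ) :=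
    fun i => pr_eq (P i)
  simp_rw [h0]
  rw [pr_eq, ← Finset.sum_div, div_mul_eq_mul_div]
  apply div_le_div_of_nonneg_right _ (by positivity)
  have h1 : (∑ i ∈ S, (((univ : Finset Ω).filter (P i)).card : ℝ)) =
      ∑ ω : Ω, ((S.filter fun i => P i ω).card : ℝ) := by
    simp only [Finset.card_filter]
    push_cast
    rw [Finset.sum_comm]
  rw [h1]
  calc (((univ : Finset Ω).filter fun ω => r < ((S.filter fun i => P i ω).card : ℝ)).card : ℝ) * r
      = ∑ ω ∈ (univ : Finset Ω).filter fun ω => r < ((S.filter fun i => P i ω).card : ℝ), r := by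
        rw [Finset.sum_const, nsmul_eq_mul]
    _ ≤ ∑ ω ∈ (univ : Finset Ω).filter fun ω => r < ((S.filter fun i => P i ω).card : ℝ),
          ((S.filter fun i => P i ω).card : ℝ) := by
        apply Finset.sum_le_sum
        intro ω hω
        exact ((mem_filter.mp hω).2).le
    _ ≤ ∑ ω : Ω, ((S.filter fun i => P i ω).card : ℝ) := by
        apply Finset.sum_le_sum_of_subset_of_nonneg (Finset.subset_univ _)
        intro ω _ _
        positivity

end prob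

/-! ### asymptotics -/

lemma ev_Lm (K : ℝ) : ∀ᶠ n : ℕ in atTop, K * Lm n ≤ n := by
  have h1 : Tendsto (fun x : ℝ => Real.log x / x) atTop (𝓝 0) := by
    have := Real.isLittleO_log_id_atTop.tendsto_div_nhds_zero
    simpa using this
  have h2 : Tendsto (fun n : ℕ => K ^ 2 * (Real.log (n : ℝ) / (n : ℝ))) atTop (𝓝 (K ^ 2 * 0)) :=
    (h1.comp tendsto_natCast_atTop_atTop).const_mul _
  rw [mul_zero] at h2
  have h3 := h2.eventually (Iio_mem_nhds (zero_lt_one : (0 : ℝ) < 1))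
  filter_upwards [h3, eventually_ge_atTop 1] with n hn hn1
  have hn0 : (0 : ℝ) < n := by exact_mod_cast hn1
  have hn1' : (1 : ℝ) ≤ n := by exact_mod_cast hn1
  have hl : 0 ≤ Real.log n := Real.log_nonneg hn1'
  unfold Lm
  have hn : K ^ 2 * (Real.log (n : ℝ) / (n : ℝ)) < 1 := hn
  rw [← mul_div_assoc, div_lt_one hn0] at hn
  have h5 : K * √(n * Real.log n) ≤ |K| * √(n * Real.log n) :=
    mul_le_mul_of_nonneg_right (le_abs_self K) (Real.sqrt_nonneg _)
  refine h5.trans ?_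
  have h6 : (|K| * √(n * Real.log n)) ^ 2 ≤ (n : ℝ) ^ 2 := by
    rw [mul_pow, Real.sq_sqrt (by positivity), sq_abs]
    nlinarith
  exact le_of_sq_le_sq h6 hn0.le

lemma ev_23 (K : ℝ) : ∀ᶠ n : ℕ in atTop, K * (n : ℝ) ^ (2 / 3 : ℝ) ≤ n := by
  have h1 : Tendsto (fun n : ℕ => (n : ℝ) ^ (1 / 3 : ℝ)) atTop atTop :=
    (tendsto_rpow_atTop (by norm_num)).comp tendsto_natCast_atTop_atTop
  filter_upwards [h1.eventually_ge_atTop K, eventually_ge_atTop 1] with n hn hn1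
  have hn0 : (0 : ℝ) < n := by exact_mod_cast hn1
  calc K * (n : ℝ) ^ (2 / 3 : ℝ) ≤ (n : ℝ) ^ (1 / 3 : ℝ) * (n : ℝ) ^ (2 / 3 : ℝ) := by gcongr
    _ = n := by
        rw [← Real.rpow_add hn0]; norm_num

lemma ev_neg {a η : ℝ} (ha : 0 < a) (hη : 0 < η) : ∀ᶠ n : ℕ in atTop, (n : ℝ) ^ (-a) ≤ η := by
  have h1 : Tendsto (fun n : ℕ => (n : ℝ) ^ (-a)) atTop (𝓝 0) :=
    (tendsto_rpow_neg_atTop ha).comp tendsto_natCast_atTop_atTop
  exact (h1.eventually (Iio_mem_nhds hη)).mono fun n hn => hn.le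

theorem few_of (h1 : S_level) (h2 : S_conc) : S_few := by
  intro p hp
  obtain ⟨ε, hε, hlev⟩ := h1 p hp
  refine ⟨ε, hε, fun δ hδ => ?_⟩
  obtain ⟨n₁, hn₁⟩ := hlev (δ / 3) (by positivity)
  obtain ⟨n₂, hn₂⟩ := h2
  have hev : ∀ᶠ n : ℕ in atTop, n₁ ≤ n ∧ n₂ ≤ n ∧ 1 ≤ n ∧ (16 + 2 * ε) / p * Lm n ≤ n ∧
      4 / p * (n : ℝ) ^ (2 / 3 : ℝ) ≤ n ∧ (n : ℝ) ^ (-5 : ℝ) ≤ δ / 3 ∧
      (n : ℝ) ^ (-(22 / 100) : ℝ) ≤ δ / 3 := by
    filter_upwards [eventually_ge_atTop n₁, eventually_ge_atTop n₂, eventually_ge_atTop 1,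
      ev_Lm ((16 + 2 * ε) / p), ev_23 (4 / p), ev_neg (a := 5) (η := δ / 3) (by norm_num)
      (by positivity), ev_neg (a := 22 / 100) (η := δ / 3) (by norm_num) (by positivity)]
      with n e1 e2 e3 e4 e5 e6 e7
    exact ⟨e1, e2, e3, e4, e5, e6, e7⟩
  obtain ⟨n₀, hn₀⟩ := eventually_atTop.mp hev
  refine ⟨n₀, fun n hn F R hC => ?_⟩
  classical
  obtain ⟨e1, e2, e3, e4, e5, e6, e7⟩ := hn₀ n hn
  obtain ⟨t, ht1, ht2⟩ := hn₁ n e1 F R hC
  have hconc := hn₂ n e2 F R hC.1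
  have hn0 : (0 : ℝ) < n := by exact_mod_cast e3
  have hL0 : 0 ≤ Lm n := Real.sqrt_nonneg _
  have hne : Nonempty (Fin n) := ⟨⟨0, e3⟩⟩
  have e4' : (16 + 2 * ε) * Lm n ≤ p * n := by
    rw [div_mul_eq_mul_div, div_le_iff₀ hp] at e4
    linarith
  have e5' : 4 * (n : ℝ) ^ (2 / 3 : ℝ) ≤ p * n := by
    rw [div_mul_eq_mul_div, div_le_iff₀ hp] at e5
    linarith
  set s : ℕ := ⌈(t : ℝ) - ε * Lm n⌉₊ with hs
  have hst : (t : ℝ) ≤ s + ε * Lm n := by
    have := Nat.le_ceil ((t : ℝ) - ε * Lm n)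
    rw [← hs] at this
    linarith
  have hF := ht2 s hst
  set good : Finset (Fin n) := univ.filter (fun v => p * n ≤ dgr R v) with hgood
  -- Markov
  have hmk : pr (fun χ : Coins n => (n : ℝ) ^ (1 / 4 : ℝ) <
      ((good.filter fun v => s ≤ dgr (rg F R χ) v).card : ℝ)) ≤ δ / 3 := by
    have h3 := pr_markov (Ω := Coins n) good (fun v χ => s ≤ dgr (rg F R χ) v)
      (r := (n : ℝ) ^ (1 / 4 : ℝ)) (Real.rpow_pos_of_pos hn0 _)
    refine h3.trans ?_
    calc (∑ v ∈ good, pr (fun χ : Coins n => s ≤ dgr (rg F R χ) v)) / (n : ℝ) ^ (1 / 4 : ℝ)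
        ≤ (n : ℝ) ^ (3 / 100 : ℝ) / (n : ℝ) ^ (1 / 4 : ℝ) := by
          apply div_le_div_of_nonneg_right hF (Real.rpow_nonneg hn0.le _)
      _ = (n : ℝ) ^ (-(22 / 100) : ℝ) := by
          rw [← Real.rpow_sub hn0]; norm_num
      _ ≤ δ / 3 := e7
  -- the maximum of the mean
  obtain ⟨u, -, hu⟩ := Finset.exists_max_image (univ : Finset (Fin n)) (fun v => mean2 F R v)
    univ_nonempty
  have hpn : 0 < p * n := by positivity
  have hu1 : p * n ≤ dgr R u := by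
    rcases hC.2 u with h | ⟨u', h⟩
    · exact h
    · have := hu u' (mem_univ _)
      linarith
  have hu2 : p * n ≤ mean2 F R u := by
    unfold mean2
    have : (0 : ℝ) ≤ dgr F u := by positivity
    linarith
  -- inclusion of events
  have hincl : ∀ χ : Coins n, (¬ ∃ D : ℕ, (∀ v, dgr (rg F R χ) v ≤ D) ∧
      (∃ v, dgr (rg F R χ) v = D) ∧ (n : ℝ) ^ (2 / 3 : ℝ) ≤ D ∧
      ((univ.filter (fun v => (D : ℝ) - ε * Lm n < dgr (rg F R χ) v)).card : ℝ) ≤
      (n : ℝ) ^ (1 / 4 : ℝ)) →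
      ((∀ v, dgr (rg F R χ) v < t) ∨
        (∃ v, 4 * Lm n ≤ |2 * (dgr (rg F R χ) v : ℝ) - mean2 F R v|)) ∨
        (n : ℝ) ^ (1 / 4 : ℝ) < ((good.filter fun v => s ≤ dgr (rg F R χ) v).card : ℝ) := by
    intro χ hχ
    by_contra hcon
    push Not at hcon
    obtain ⟨⟨⟨v₁, hv₁⟩, hdev⟩, hcard⟩ := hcon
    apply hχ
    obtain ⟨w, -, hw⟩ := Finset.exists_max_image (univ : Finset (Fin n))
      (fun v => dgr (rg F R χ) v) univ_nonempty
    set D := dgr (rg F R χ) w with hD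
    have hDle : ∀ v, dgr (rg F R χ) v ≤ D := fun v => hw v (mem_univ v)
    have hDt : (t : ℝ) ≤ D := by exact_mod_cast hv₁.trans (hDle v₁)
    have hDu : mean2 F R u - 4 * Lm n ≤ 2 * (D : ℝ) := by
      have h3 := (abs_lt.mp (hdev u)).1
      have h4 : (dgr (rg F R χ) u : ℝ) ≤ D := by exact_mod_cast hDle u
      linarith
    refine ⟨D, hDle, ⟨w, rfl⟩, ?_, ?_⟩
    · have h5 : 16 * Lm n ≤ p * n := by nlinarith
      linarith
    · refine le_trans ?_ hcard
      exact_mod_cast Finset.card_le_card (fun v hv => by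
        have h6 : (D : ℝ) - ε * Lm n < dgr (rg F R χ) v := (mem_filter.mp hv).2
        rw [mem_filter, hgood, mem_filter]
        refine ⟨⟨mem_univ _, ?_⟩, ?_⟩
        · rcases hC.2 v with h | ⟨u', h⟩
          · exact h
          · exfalso
            have h7 := hu u' (mem_univ _)
            have h8 := (abs_lt.mp (hdev v)).2
            nlinarith
        · rw [hs, Nat.ceil_le]
          linarith)
  calc pr (fun χ => ¬ ∃ D : ℕ, (∀ v, dgr (rg F R χ) v ≤ D) ∧ (∃ v, dgr (rg F R χ) v = D) ∧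
        (n : ℝ) ^ (2 / 3 : ℝ) ≤ D ∧
        ((univ.filter (fun v => (D : ℝ) - ε * Lm n < dgr (rg F R χ) v)).card : ℝ) ≤
        (n : ℝ) ^ (1 / 4 : ℝ))
      ≤ pr (fun χ : Coins n => ((∀ v, dgr (rg F R χ) v < t) ∨
        (∃ v, 4 * Lm n ≤ |2 * (dgr (rg F R χ) v : ℝ) - mean2 F R v|)) ∨
        (n : ℝ) ^ (1 / 4 : ℝ) < ((good.filter fun v => s ≤ dgr (rg F R χ) v).card : ℝ)) :=
        pr_mono (fun χ hχ => hincl χ (by convert hχ))
    _ ≤ pr (fun χ : Coins n => (∀ v, dgr (rg F R χ) v < t) ∨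
        (∃ v, 4 * Lm n ≤ |2 * (dgr (rg F R χ) v : ℝ) - mean2 F R v|)) +
        pr (fun χ : Coins n => (n : ℝ) ^ (1 / 4 : ℝ) <
          ((good.filter fun v => s ≤ dgr (rg F R χ) v).card : ℝ)) := pr_or
    _ ≤ (pr (fun χ : Coins n => (∀ v, dgr (rg F R χ) v < t)) +
        pr (fun χ : Coins n => ∃ v, 4 * Lm n ≤ |2 * (dgr (rg F R χ) v : ℝ) - mean2 F R v|)) +
        pr (fun χ : Coins n => (n : ℝ) ^ (1 / 4 : ℝ) <
          ((good.filter fun v => s ≤ dgr (rg F R χ) v).card : ℝ)) := by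
        gcongr
        exact pr_or
    _ ≤ (δ / 3 + δ / 3) + δ / 3 := by
        gcongr
        exact hconc.trans e6
    _ = δ := by ring

end Pool.Agent.Y125.RS
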