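import Pool.Agent.Y395.RS.Stm

set_option autoImplicit false

/-! Project RS (helper395), job RS-ISO. -/

namespace Pool.Agent.Y125.RS

open Finset Pool.Agent.Y395.RS

/-- greedy choice of an independent set -/
lemma greedy {V : Type} [Fintype V] [DecidableEq V] (G : SimpleGraph V) (b : ℕ) :
    ∀ (m : ℕ) (L : Finset V), (∀ x ∈ L, (nb G L x).card ≤ b) → m * (b + 1) ≤ L.card →
      ∃ I : Finset V, I ⊆ L ∧ Indep G I ∧ I.card = m := by
  intro m
  induction m with
  | zero => intro L _ _; exact ⟨∅, empty_subset _, fun x hx => absurd hx (notMem_empty x), rfl⟩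
  | succ m ih =>
    intro L hL hcard
    have hne : L.Nonempty := by
      rw [← card_pos]
      have : 0 < (m + 1) * (b + 1) := by positivity
      omega
    obtain ⟨x, hx⟩ := hne
    set L' := L \ insert x (nb G L x) with hL'
    have hsub : L' ⊆ L := sdiff_subset
    have h1 : ∀ y ∈ L', (nb G L' y).card ≤ b := by
      intro y hy
      refine (card_le_card ?_).trans (hL y (hsub hy))
      intro z hz
      rw [mem_nb] at hz ⊢
      exact ⟨hsub hz.1, hz.2⟩
    have h2 : m * (b + 1) ≤ L'.card := by
      have h3 : (insert x (nb G L x)).card ≤ b + 1 :=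
        (card_insert_le _ _).trans (Nat.add_le_add_right (hL x hx) 1)
      have h4 : L.card ≤ L'.card + (insert x (nb G L x)).card := by
        rw [hL']; exact card_le_card_sdiff_add_card
      have h5 : (m + 1) * (b + 1) = m * (b + 1) + (b + 1) := by ring
      omega
    obtain ⟨I, hI1, hI2, hI3⟩ := ih L' h1 h2
    have hxI : x ∉ I := by
      intro h
      have := hI1 h
      rw [hL', mem_sdiff] at this
      exact this.2 (mem_insert_self _ _)
    have hnot : ∀ y ∈ I, ¬ G.Adj x y := by
      intro y hy hadj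
      have := hI1 hy
      rw [hL', mem_sdiff] at this
      exact this.2 (mem_insert_of_mem ((mem_nb G L x y).mpr ⟨this.1, hadj⟩))
    refine ⟨insert x I, ?_, ?_, ?_⟩
    · exact insert_subset hx (hI1.trans hsub)
    · intro u hu v hv
      rcases mem_insert.mp hu with hu' | hu'
      · rcases mem_insert.mp hv with hv' | hv'
        · rw [hu', hv']; exact G.loopless.irrefl _
        · rw [hu']; exact hnot v hv'
      · rcases mem_insert.mp hv with hv' | hv'
        · rw [hv']; exact fun h => hnot u hu' h.symm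
        · exact hI2 u hu' v hv'
    · rw [card_insert_of_notMem hxI, hI3]

lemma cnt_nonempty {α : Type} (B : Finset α) :
    cnt B (fun F => F.Nonempty) = 2 ^ B.card - 1 := by
  classical
  rw [cnt_eq]
  have h1 : B.powerset.filter (fun F => F.Nonempty) = B.powerset.erase ∅ := by
    ext F
    rw [mem_filter, mem_erase, nonempty_iff_ne_empty, and_comm]
  rw [h1, card_erase_of_mem (empty_mem_powerset _), card_powerset]
  rw [Nat.cast_sub (Nat.one_le_pow _ _ (by norm_num))]
  push_cast
  rfl

theorem iso : ISO := by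
  intro V _ _ G S L b m hLS hb hm
  classical
  obtain ⟨I, hIL, hind, hIc⟩ := greedy G b m L (fun x hx => by
    refine (card_le_card ?_).trans (hb x hx)
    intro y hy
    rw [mem_nb] at hy ⊢
    exact ⟨hLS hy.1, hy.2⟩) hm
  set B : V → Finset (Sym2 V) := fun z => (nb G S z).image fun y => s(z, y) with hB
  have hBe : ∀ z ∈ I, B z ⊆ ed G := by
    intro z _ e he
    simp only [hB, mem_image] at he
    obtain ⟨y, hy, rfl⟩ := he
    rw [mem_ed]
    exact ((mem_nb G S z y).mp hy).2
  have hdis : ∀ z ∈ I, ∀ z' ∈ I, z ≠ z' → Disjoint (B z) (B z') := by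
    intro z hz z' hz' hne
    rw [disjoint_left]
    intro e he he'
    simp only [hB, mem_image] at he he'
    obtain ⟨y, hy, rfl⟩ := he
    obtain ⟨y', hy', h⟩ := he'
    rw [Sym2.eq_iff] at h
    rcases h with ⟨h1, _⟩ | ⟨h1, h2⟩
    · exact hne h1.symm
    · rw [← h1] at hy
      exact hind z hz z' hz' ((mem_nb G S z z').mp hy).2
  have hcnt : ∀ z ∈ I, cnt (B z) (fun F => F.Nonempty) ≤ (1 - (1 / 2) ^ b) * 2 ^ (B z).card := by
    intro z hz
    rw [cnt_nonempty]
    have h1 : (B z).card ≤ b := card_image_le.trans (hb z (hIL hz))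
    have h2 : ((1 : ℝ) / 2) ^ b * 2 ^ (B z).card ≤ 1 := by
      calc ((1 : ℝ) / 2) ^ b * 2 ^ (B z).card ≤ (1 / 2) ^ b * 2 ^ b := by
            gcongr
            norm_num
        _ = 1 := by rw [← mul_pow]; norm_num
    linarith
  have h1 := cnt_blocks (ed G) I B (fun _ F => F.Nonempty) (fun _ => 1 - (1 / 2) ^ b) hBe hdis hcnt
  rw [prod_const, hIc] at h1
  refine le_trans (cnt_mono fun F hF h z hz => ?_) h1
  obtain ⟨y, hy, he⟩ := h z (hIL hz)
  refine ⟨s(z, y), mem_inter.mpr ⟨he, ?_⟩⟩
  simp only [hB, mem_image]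
  exact ⟨y, (mem_nb G S z y).mpr ⟨hy, (mem_ed G z y).mp (hF he)⟩, rfl⟩

end Pool.Agent.Y125.RS
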