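import Pool.Agent.Y395.RS.Stm

set_option autoImplicit false

/-!
Project RS (helper395), statement STAR: a graph with at least three vertices is reconstructible if
for some vertex all neighbours are fixed by all near-automorphisms.
-/

namespace Pool.Agent.Y125.RS

open Finset Pool.Agent.H234RC Pool.Agent.TH953.RC Pool.Agent.Y395.RS

open Classical in
/-- ordered adjacent pairs -/
noncomputable def pr {V : Type} [Fintype V] (G : SimpleGraph V) : Finset (V × V) :=
  univ.filter (fun p => G.Adj p.1 p.2)

open Classical in
/-- ordered adjacent pairs which avoid `v` -/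
noncomputable def pv {V : Type} [Fintype V] (G : SimpleGraph V) (v : V) : Finset (V × V) :=
  univ.filter (fun p => G.Adj p.1 p.2 ∧ p.1 ≠ v ∧ p.2 ≠ v)

open Classical in
/-- neighbours of `v` -/
noncomputable def nn {V : Type} [Fintype V] (G : SimpleGraph V) (v : V) : Finset V :=
  univ.filter (fun x => G.Adj v x)

open Classical in
/-- neighbours of `u` other than `v` -/
noncomputable def nw {V : Type} [Fintype V] (G : SimpleGraph V) (u v : V) : Finset V :=
  univ.filter (fun x => G.Adj u x ∧ x ≠ v)

theorem pr_sum {V : Type} [Fintype V] (G : SimpleGraph V) : (pr G).card = ∑ v, (nn G v).card := by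
  classical
  have h : pr G = (univ : Finset V).biUnion (fun v => (nn G v).image (fun x => (v, x))) := by
    ext ⟨a, b⟩
    simp only [pr, nn, mem_filter, mem_univ, true_and, mem_biUnion, mem_image, Prod.mk.injEq]
    constructor
    · intro h
      exact ⟨a, b, h, rfl, rfl⟩
    · rintro ⟨v, x, h, rfl, rfl⟩
      exact h
  rw [h, card_biUnion]
  · apply sum_congr rfl
    intro v _
    apply card_image_of_injective
    intro x y e
    exact (Prod.ext_iff.1 e).2
  · intro v _ w _ hvw
    rw [Function.onFun, disjoint_left]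
    intro p h1 h2
    obtain ⟨x, -, rfl⟩ := mem_image.1 h1
    obtain ⟨y, -, e⟩ := mem_image.1 h2
    exact hvw (Prod.ext_iff.1 e).1.symm

theorem pv_card {V : Type} [Fintype V] (G : SimpleGraph V) (v : V) :
    (pv G v).card + 2 * (nn G v).card = (pr G).card := by
  classical
  have h : pr G = (pv G v ∪ (nn G v).image (fun x => (v, x))) ∪ (nn G v).image (fun x => (x, v)) := by
    ext ⟨a, b⟩
    simp only [pr, pv, nn, mem_filter, mem_univ, true_and, mem_union, mem_image, Prod.mk.injEq]
    constructor
    · intro h
      by_cases ha : a = v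
      · subst ha
        exact Or.inl (Or.inr ⟨b, h, rfl, rfl⟩)
      · by_cases hb : b = v
        · subst hb
          exact Or.inr ⟨a, h.symm, rfl, rfl⟩
        · exact Or.inl (Or.inl ⟨h, ha, hb⟩)
    · rintro ((⟨h, -, -⟩ | ⟨x, h, rfl, rfl⟩) | ⟨x, h, rfl, rfl⟩)
      · exact h
      · exact h
      · exact h.symm
  rw [h, card_union_of_disjoint, card_union_of_disjoint, card_image_of_injective,
    card_image_of_injective]
  · ring
  · intro x y e
    exact (Prod.ext_iff.1 e).1
  · intro x y e
    exact (Prod.ext_iff.1 e).2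
  · rw [disjoint_left]
    intro p h1 h2
    obtain ⟨x, -, rfl⟩ := mem_image.1 h2
    exact (mem_filter.1 h1).2.2.1 rfl
  · rw [disjoint_left]
    intro p h1 h2
    obtain ⟨x, hx, rfl⟩ := mem_image.1 h2
    rcases mem_union.1 h1 with h1 | h1
    · exact (mem_filter.1 h1).2.2.2 rfl
    · obtain ⟨y, hy, e⟩ := mem_image.1 h1
      have e1 : v = x := (Prod.ext_iff.1 e).1
      have := (mem_filter.1 hx).2
      rw [← e1] at this
      exact G.irrefl this

theorem nn_nw {V : Type} [Fintype V] (G : SimpleGraph V) (u v : V) :
    G.Adj u v ↔ (nw G u v).card < (nn G u).card := by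
  classical
  have hsub : nw G u v ⊆ nn G u := by
    intro x hx
    exact mem_filter.2 ⟨mem_univ _, (mem_filter.1 hx).2.1⟩
  constructor
  · intro h
    apply card_lt_card
    refine ⟨hsub, fun h' => ?_⟩
    have := h' (mem_filter.2 ⟨mem_univ v, h⟩)
    exact (mem_filter.1 this).2.2 rfl
  · intro h
    by_contra hc
    have : nn G u ⊆ nw G u v := by
      intro x hx
      have hx' := (mem_filter.1 hx).2
      refine mem_filter.2 ⟨mem_univ _, hx', ?_⟩
      rintro rfl
      exact hc hx'
    have := card_le_card this
    omega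

theorem star : STAR := by
  classical
  intro V _ G z hn hz W _ H hf
  obtain ⟨f, hf⟩ := hf
  have hex : ∀ v, ∃ π : V ≃ W, π v = f v ∧
      ∀ x y, x ≠ v → y ≠ v → (H.Adj (π x) (π y) ↔ G.Adj x y) :=
    fun v => card_ext G H v (f v) (hf v)
  choose π hπ hadj using hex
  -- the cards have equally many edges
  have hc : ∀ v, (pv G v).card = (pv H (f v)).card := by
    intro v
    apply card_bij (fun p _ => (π v p.1, π v p.2))
    · intro p hp
      obtain ⟨-, h1, h2, h3⟩ := mem_filter.1 hp
      refine mem_filter.2 ⟨mem_univ _, (hadj v _ _ h2 h3).2 h1, ?_, ?_⟩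
      · intro e
        exact h2 ((π v).injective (e.trans (hπ v).symm))
      · intro e
        exact h3 ((π v).injective (e.trans (hπ v).symm))
    · intro p _ q _ e
      have e' := Prod.ext_iff.1 e
      exact Prod.ext ((π v).injective e'.1) ((π v).injective e'.2)
    · intro q hq
      obtain ⟨-, h1, h2, h3⟩ := mem_filter.1 hq
      have g2 : (π v).symm q.1 ≠ v := fun e => h2 (by
        rw [← hπ v]; exact ((Equiv.symm_apply_eq _).1 e))
      have g3 : (π v).symm q.2 ≠ v := fun e => h3 (by
        rw [← hπ v]; exact ((Equiv.symm_apply_eq _).1 e))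
      refine ⟨((π v).symm q.1, (π v).symm q.2), mem_filter.2 ⟨mem_univ _, ?_, g2, g3⟩, ?_⟩
      · have := hadj v _ _ g2 g3
        simp only [Equiv.apply_symm_apply] at this
        exact this.1 h1
      · simp
  have hcV : Fintype.card W = Fintype.card V := (Fintype.card_congr f).symm
  -- sums
  have sG : ∑ v, (pv G v).card + 2 * (pr G).card = Fintype.card V * (pr G).card := by
    have h1 : ∑ v : V, ((pv G v).card + 2 * (nn G v).card) = ∑ _v : V, (pr G).card :=
      sum_congr rfl (fun v _ => pv_card G v)
    rw [sum_add_distrib, ← mul_sum, ← pr_sum, sum_const, card_univ, smul_eq_mul] at h1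
    exact h1
  have sH : ∑ v, (pv H v).card + 2 * (pr H).card = Fintype.card V * (pr H).card := by
    have h1 : ∑ v : W, ((pv H v).card + 2 * (nn H v).card) = ∑ _v : W, (pr H).card :=
      sum_congr rfl (fun v _ => pv_card H v)
    rw [sum_add_distrib, ← mul_sum, ← pr_sum, sum_const, card_univ, smul_eq_mul, hcV] at h1
    exact h1
  have sE : ∑ v, (pv G v).card = ∑ w, (pv H w).card := by
    rw [← Equiv.sum_comp f]
    exact sum_congr rfl (fun v _ => hc v)
  have hE : (pr G).card = (pr H).card := by
    rw [sE] at sG
    obtain ⟨m, hm⟩ : ∃ m, Fintype.card V = m + 3 := ⟨Fintype.card V - 3, by omega⟩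
    rw [hm] at sG sH
    have h1 : ∑ w, (pv H w).card = (m + 1) * (pr G).card := by
      have : (m + 3) * (pr G).card = (m + 1) * (pr G).card + 2 * (pr G).card := by ring
      omega
    have h2 : ∑ w, (pv H w).card = (m + 1) * (pr H).card := by
      have : (m + 3) * (pr H).card = (m + 1) * (pr H).card + 2 * (pr H).card := by ring
      omega
    exact Nat.eq_of_mul_eq_mul_left (Nat.succ_pos m) (h1.symm.trans h2)
  have hdeg : ∀ v, (nn G v).card = (nn H (f v)).card := by
    intro v
    have h1 := pv_card G v
    have h2 := pv_card H (f v)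
    have h3 := hc v
    omega
  -- rigid vertices
  have hfix : ∀ u v, Rn G u → v ≠ u → π v u = f u := fun u v hR hvu =>
    three_fix hvu (hπ v) (hπ u) (hadj v) (hadj u) hR
  have hrig : ∀ u v, Rn G u → v ≠ u → (G.Adj u v ↔ H.Adj (f u) (f v)) := by
    intro u v hR hvu
    have hw : (nw G u v).card = (nw H (f u) (f v)).card := by
      apply card_bij (fun x _ => π v x)
      · intro x hx
        obtain ⟨-, h1, h2⟩ := mem_filter.1 hx
        refine mem_filter.2 ⟨mem_univ _, ?_, ?_⟩
        · rw [← hfix u v hR hvu]
          exact (hadj v _ _ hvu.symm h2).2 h1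
        · intro e
          exact h2 ((π v).injective (e.trans (hπ v).symm))
      · intro x _ y _ e
        exact (π v).injective e
      · intro y hy
        obtain ⟨-, h1, h2⟩ := mem_filter.1 hy
        have g2 : (π v).symm y ≠ v := fun e => h2 (by
          rw [← hπ v]; exact ((Equiv.symm_apply_eq _).1 e))
        refine ⟨(π v).symm y, mem_filter.2 ⟨mem_univ _, ?_, g2⟩, by simp⟩
        have := hadj v u _ hvu.symm g2
        rw [Equiv.apply_symm_apply, hfix u v hR hvu] at this
        exact this.1 h1
    rw [nn_nw, nn_nw, hw, hdeg]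
  have hnb : ∀ w, H.Adj (f z) w → ∃ u, G.Adj z u ∧ f u = w := by
    have hsub : (nn G z).image f ⊆ nn H (f z) := by
      intro w hw
      obtain ⟨u, hu, rfl⟩ := mem_image.1 hw
      have hu' := (mem_filter.1 hu).2
      exact mem_filter.2 ⟨mem_univ _, ((hrig u z (hz u hu') hu'.ne).1 hu'.symm).symm⟩
    have heq : (nn G z).image f = nn H (f z) := by
      apply eq_of_subset_of_card_le hsub
      rw [card_image_of_injective _ f.injective, hdeg]
    intro w hw
    have : w ∈ (nn G z).image f := by
      rw [heq]
      exact mem_filter.2 ⟨mem_univ _, hw⟩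
    obtain ⟨u, hu, rfl⟩ := mem_image.1 this
    exact ⟨u, (mem_filter.1 hu).2, rfl⟩
  have key : ∀ x, x ≠ z → (H.Adj (π z z) (π z x) ↔ G.Adj z x) := by
    intro x hx
    rw [hπ z]
    constructor
    · intro h
      obtain ⟨u, hu, e⟩ := hnb _ h
      have h1 : π z u = f u := hfix u z (hz u hu) hu.ne
      have h2 : u = x := (π z).injective (h1.trans e)
      rw [← h2]
      exact hu
    · intro h
      rw [hfix x z (hz x h) h.ne]
      exact ((hrig x z (hz x h) h.ne).1 h.symm).symm
  apply whole_iso G H (π z)
  intro x y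
  by_cases hx : x = z
  · by_cases hy : y = z
    · rw [hx, hy]; simp
    · rw [hx]; exact key y hy
  · by_cases hy : y = z
    · rw [hy, H.adj_comm, G.adj_comm]; exact key x hx
    · exact hadj z x y hx hy

end Pool.Agent.Y125.RS
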